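import Pool.Agent.Helper79.UN.NGoals

/-! # Packet MIX: mixing a family of predicates along a maximal antichain -/

noncomputable section

namespace UN.PkMIX

open Pool.Agent.Helper97.Ku NU UL UN

variable {L : Type} [CompleteBooleanAlgebra L]

/-- The disjointification of a family along a well-order. -/
def dis {κ : Type} (c : κ → L) (k : κ) : L :=
  c k ⊓ (⨆ k' : {k' : κ // WellOrderingRel k' k}, c k'.1)ᶜ

theorem dis_le {κ : Type} (c : κ → L) (k : κ) : dis c k ≤ c k := inf_le_left

theorem dis_lt {κ : Type} (c : κ → L) {k k' : κ} (h : WellOrderingRel k' k) :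
    dis c k ⊓ dis c k' ≤ ⊥ := by
  have h1 : dis c k ≤ (c k')ᶜ := by
    refine inf_le_right.trans ?_
    exact compl_le_compl (le_iSup (fun k' : {k' : κ // WellOrderingRel k' k} => c k'.1) ⟨k', h⟩)
  calc dis c k ⊓ dis c k' ≤ (c k')ᶜ ⊓ c k' := inf_le_inf h1 (dis_le c k')
    _ ≤ ⊥ := by rw [compl_inf_self]

theorem dis_ne {κ : Type} (c : κ → L) {k k' : κ} (h : k ≠ k') :
    dis c k ⊓ dis c k' ≤ ⊥ := by
  rcases trichotomous_of (WellOrderingRel (α := κ)) k k' with h1 | h1 | h1
  · rw [inf_comm]; exact dis_lt c h1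
  · exact absurd h1 h
  · exact dis_lt c h1

theorem le_dis {κ : Type} (c : κ → L) : (⨆ k, c k) ≤ ⨆ k, dis c k := by
  refine iSup_le fun k => ?_
  induction k using (IsWellFounded.wf (r := WellOrderingRel (α := κ))).induction with
  | _ k ih =>
    have h1 : (⨆ k' : {k' : κ // WellOrderingRel k' k}, c k'.1) ≤ ⨆ k, dis c k :=
      iSup_le fun k' => ih k'.1 k'.2
    have h2 : c k ≤ dis c k ⊔ (⨆ k' : {k' : κ // WellOrderingRel k' k}, c k'.1) := by
      unfold dis
      rw [sup_inf_right, compl_sup_eq_top, inf_top_eq]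
      exact le_sup_left
    exact h2.trans (sup_le (le_iSup (dis c) k) h1)

theorem mix_pf : U_MIX := by
  intro L _ T κ c q
  refine ⟨fun t => ⨆ k, (dis c k ⊓ q k t), dis c, dis_le c, le_dis c, ?_⟩
  intro k t
  have key : dis c k ⊓ (⨆ k', (dis c k' ⊓ q k' t)) = dis c k ⊓ q k t := by
    apply le_antisymm
    · rw [inf_iSup_eq]
      refine iSup_le fun k' => ?_
      by_cases h : k = k'
      · subst h
        rw [← inf_assoc, inf_idem]
      · rw [← inf_assoc]
        exact (inf_le_left.trans (dis_ne c h)).trans bot_le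
    · refine le_inf inf_le_left ?_
      exact le_iSup (fun k' => dis c k' ⊓ q k' t) k
  unfold iffV
  refine le_inf ?_ ?_
  · rw [le_himp_iff, key]
    exact inf_le_right
  · rw [le_himp_iff, ← key]
    exact inf_le_right

end UN.PkMIX
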